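import Mathlib

set_option autoImplicit false

open Set MeasureTheory

namespace Pool.Agent.W345.SP

/-- Euclidean space of dimension `n` -/
abbrev E (n : ℕ) := EuclideanSpace ℝ (Fin n)

/-- continuous bounded functions of unbounded variation on every interval -/
def NV (g : ℝ → ℝ) : Prop :=
  Continuous g ∧ (∃ C, ∀ x, |g x| ≤ C) ∧ ∀ a b, a < b → eVariationOn g (Icc a b) = ⊤

/-- such functions exist -/
def S_NBV : Prop := ∃ g, NV g

/-- composition with a function of this kind detects that a curve moves -/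
def S_CRV : Prop := ∀ g, NV g → ∀ (a b : ℝ) (x : ℝ → ℝ), a ≤ b → ContinuousOn x (Icc a b) →
  eVariationOn (fun t => g (x t)) (Icc a b) ≠ ⊤ → ∀ t ∈ Icc a b, x t = x a

/-- the map of `E (n+2)` to itself: with `a i = arctan (x i)` its coordinates are
`a 0 + g (a (n+1) + g (a n))` and `a (i+1) + g (a i)` -/
noncomputable def FF (g : ℝ → ℝ) (n : ℕ) (x : E (n + 2)) : E (n + 2) :=
  WithLp.toLp 2 (Fin.cases
    (Real.arctan (x 0) + g (Real.arctan (x (Fin.last (n + 1))) +
      g (Real.arctan (x (Fin.last n).castSucc))))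
    (fun j : Fin (n + 1) => Real.arctan (x j.succ) + g (Real.arctan (x j.castSucc))))

/-- the map is an embedding -/
def S_EMB : Prop := ∀ (g : ℝ → ℝ) (n : ℕ), Continuous g → Topology.IsEmbedding (FF g n)

/-- the map is bounded -/
def S_BDD : Prop := ∀ (g : ℝ → ℝ) (n : ℕ), NV g → ∃ C : ℝ, 0 < C ∧ ∀ x, ‖FF g n x‖ ≤ C

/-- a rectifiable curve whose image is rectifiable is constant -/
def S_VAR : Prop := ∀ (g : ℝ → ℝ) (n : ℕ), NV g → ∀ (a b : ℝ) (γ : ℝ → E (n + 2)), a ≤ b →
  ContinuousOn γ (Icc a b) → eVariationOn γ (Icc a b) ≠ ⊤ →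
  eVariationOn (fun t => FF g n (γ t)) (Icc a b) ≠ ⊤ → eVariationOn γ (Icc a b) = 0

/-- `f` is a length increasing embedding of `U` into the closed unit ball -/
def LengthIncreasingEmbedding {n : ℕ} (U : Set (E n)) (f : E n → E n) : Prop :=
  Topology.IsEmbedding (fun x : U => f x) ∧ (∀ x ∈ U, ‖f x‖ ≤ 1) ∧
  ∀ (a b : ℝ) (γ : ℝ → E n), a ≤ b → ContinuousOn γ (Icc a b) → (∀ t ∈ Icc a b, γ t ∈ U) →
    eVariationOn γ (Icc a b) ≠ ⊤ →
    eVariationOn γ (Icc a b) ≤ eVariationOn (fun t => f (γ t)) (Icc a b)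

/-- dimension one -/
def S_ONE : Prop := ∀ U : Set (E 1), IsOpen U → volume U ≤ 2 → ∃ f, LengthIncreasingEmbedding U f

/-- dimension at least two: every open set, of any volume -/
def S_TWO : Prop := ∀ (n : ℕ) (U : Set (E (n + 2))), IsOpen U → ∃ f, LengthIncreasingEmbedding U f

end Pool.Agent.W345.SP
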